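import Pool.Agent.K1H32.CB.Quad4
import Pool.Agent.K1H56.CB.T6

/-!
# Complete balanced Howell rotations on `2 ^ k` partnerships

The partnerships are the elements of a field `F` with `2 ^ k` elements.  The boards and the rounds are
the nonzero elements of `F`.  On board `d` the partnerships `x` and `x + d` play each other, and the
direction of `x` is `(-1) ^ tr (c x / d)` for a fixed `c` with `tr c = 1`.  The round of the pair
`{x, y}` is `(x + y) h (x / (x + y))` for a function `h : F → F ∖ {0}` with `h (u + 1) = h u`, injective on
the pairs `{u, u + 1}`, for which `u ↦ h u / u` is injective on `F ∖ {0}` (`IsAdder`).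

* For odd `k` one can take `h u = u (u + 1)` for `u ≠ 0, 1` and `h 0 = h 1 = 1`.
* For `k = 4 m`, `m` odd, one takes `h u = u (u + 1)` outside the subfield with 16 elements and a table
  inside of this subfield.
* For `k = 6` the function `h` is given by a table of logarithms which was found by computer and is checked
  by the kernel.
* For `k = 2 m`, `m ≥ 4`, let `E` be the subfield with `2 ^ m` elements and `F = E (θ)` with
  `θ ^ 2 + θ = δ ∈ E`.  One takes an adder of `E` on `E`, `h u ^ 2 = u (u + 1)` outside `E ∪ (E + θ)`, and on
  `E + θ` the values which are left are matched to the pairs `{u, u + 1}` by an explicit function, which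
  depends on an element `d` of `E` with `tr (1 + d) = tr (1 + d⁻¹) = 1` and `d ^ 2 + d + 1 ≠ 0`.

The proof is joint work of helper32 (`Pool.Agent.K1H32.CB`) and helper56 (`Pool.Agent.K1H56.CB`).
-/

set_option autoImplicit false

namespace Pool.Agent.Results.MP_db622c_co.AllPowersOfTwo

open Pool.Agent.K1H32.CB

/-- For every `k ≥ 3` there is a complete balanced Howell rotation on `2 ^ k` partnerships; and
`2 ^ k - 1` is not a prime power if `k ≥ 2` is not a prime. -/
theorem result :
    (∀ k : ℕ, 3 ≤ k → ∃ R S, IsCBHR (2 ^ k) R S) ∧
    (∀ k : ℕ, 2 ≤ k → ¬ k.Prime → ¬ IsPrimePow (2 ^ k - 1)) := by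
  refine ⟨fun k h3 => ?_, not_isPrimePow⟩
  by_cases h6 : k = 6
  · have h : k = 6 * 1 := by omega
    rw [h]
    exact Pool.Agent.K1H56.CB.T6.cbhr 1 odd_one
  · exact cbhr_of_P k (P_all k h3 h6)

end Pool.Agent.Results.MP_db622c_co.AllPowersOfTwo
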